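import Pool.Agent.Q76.GIT.Final

/-!
# GIT stability of quintic surfaces, quartic threefolds and quintic threefolds

A pair `(w, e)` in the lists below is written `wt3 a b c e` (surfaces, `w = (a, b, c, 0)`) or
`wt4 a b c d e` (threefolds, `w = (a, b, c, d, 0)`).  A form `f` satisfies `HasWeight f (w, e)` when
the hypersurface `X : f = 0` has a point `P` and linear coordinates with `P = (0 : ... : 0 : 1)`
such that every monomial `x ^ m` of the equation of `X` has `w 0 * m 0 + w 1 * m 1 + ... ≥ e`; that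
is, the local equation of `X` at `P`, in the affine coordinates centred at `P`, has weighted
multiplicity at least `e` for the weights `w`.  For instance `wt3 1 1 1 4` is a point of
multiplicity at least four, and `wt3 2 1 1 5` is a triple point whose tangent cone contains some
plane `H` twice, `X ∩ H` having multiplicity at least five at `P`.

`Stable` and `Semistable` are defined by the closures of the orbits (and the stabilisers); the
Hilbert-Mumford criterion is proved in `Pool.Agent.Q76.GIT.HM3`.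
-/

set_option autoImplicit false

namespace Pool.Agent.Results.MP_965dfe_ag.StabilityByWeights

open MvPolynomial Pool.Agent.Q76.GIT

/-- the weights `(a, b, c, 0)` and the bound `e` -/
def wt3 (a b c e : ℕ) : (Fin 4 → ℕ) × ℕ := (![a, b, c, 0], e)

/-- the weights `(a, b, c, d, 0)` and the bound `e` -/
def wt4 (a b c d e : ℕ) : (Fin 5 → ℕ) × ℕ := (![a, b, c, d, 0], e)

/-- the weights of the quintic surfaces that are not stable -/
def quinticSurfaceNotStable : List ((Fin 4 → ℕ) × ℕ) :=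
  [wt3 1 1 1 4, wt3 2 1 1 5, wt3 5 4 3 15, wt3 3 3 1 9, wt3 9 7 4 25, wt3 4 3 1 10,
   wt3 2 1 0 4, wt3 9 5 2 20, wt3 5 2 1 10, wt3 12 4 3 24]

/-- the weights of the unstable quintic surfaces -/
def quinticSurfaceUnstable : List ((Fin 4 → ℕ) × ℕ) :=
  [wt3 1 1 1 4, wt3 7 5 3 19, wt3 5 4 2 14, wt3 6 3 2 14, wt3 3 2 2 9, wt3 6 4 1 14,
   wt3 8 6 5 24, wt3 3 3 1 9, wt3 11 9 6 33, wt3 12 4 3 24, wt3 2 1 0 4]

/-- the weights of the quartic threefolds that are not stable -/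
def quarticThreefoldNotStable : List ((Fin 5 → ℕ) × ℕ) :=
  [wt4 2 1 1 1 4, wt4 3 3 2 2 8, wt4 4 4 4 3 12, wt4 2 2 1 0 4, wt4 5 4 4 2 12,
   wt4 8 7 6 4 20, wt4 14 12 11 8 36, wt4 6 4 4 1 12, wt4 4 3 2 1 8, wt4 6 4 3 2 12,
   wt4 6 5 2 2 12, wt4 3 1 1 0 4, wt4 4 1 0 0 4, wt4 5 3 1 1 8, wt4 8 4 2 1 12,
   wt4 14 6 3 2 20]

/-- the weights of the unstable quartic threefolds -/
def quarticThreefoldUnstable : List ((Fin 5 → ℕ) × ℕ) :=
  [wt4 5 3 2 1 9, wt4 12 10 9 6 30, wt4 5 4 2 1 10, wt4 8 7 6 5 21, wt4 7 4 3 2 13,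
   wt4 9 4 2 1 13, wt4 7 6 5 3 17, wt4 9 6 4 3 18, wt4 3 3 1 0 6, wt4 1 0 0 0 1,
   wt4 5 4 4 3 13, wt4 3 2 2 0 6, wt4 3 2 1 0 5, wt4 6 3 1 1 9, wt4 4 3 3 1 9,
   wt4 9 8 6 6 24, wt4 13 12 9 7 33, wt4 15 10 9 3 30, wt4 15 6 3 2 21, wt4 13 9 8 2 26,
   wt4 9 5 5 3 18, wt4 2 2 1 1 5, wt4 3 3 3 2 9]

/-- part 1 of `quinticThreefoldNotStable` -/
def quinticThreefoldNotStable1 : List ((Fin 5 → ℕ) × ℕ) :=
  [wt4 1 1 1 1 4, wt4 1 1 1 0 3, wt4 2 1 1 1 5, wt4 2 2 1 1 6, wt4 5 4 3 3 15,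
   wt4 4 3 3 2 12, wt4 1 1 0 0 2, wt4 3 2 2 1 8, wt4 3 3 2 1 9, wt4 2 1 1 0 4,
   wt4 12 9 8 7 36, wt4 9 7 6 5 27, wt4 6 5 4 3 18, wt4 7 6 5 3 21, wt4 5 4 3 2 14,
   wt4 1 0 0 0 1, wt4 8 7 6 3 24, wt4 7 5 4 3 19, wt4 5 4 3 1 13, wt4 9 7 5 4 25]

/-- part 2 of `quinticThreefoldNotStable` -/
def quinticThreefoldNotStable2 : List ((Fin 5 → ℕ) × ℕ) :=
  [wt4 3 2 1 1 7, wt4 4 3 2 1 10, wt4 7 6 5 2 20, wt4 3 2 1 0 6, wt4 6 5 3 1 15,
   wt4 8 5 4 3 20, wt4 5 4 2 1 12, wt4 5 3 2 1 11, wt4 4 2 1 1 8, wt4 7 4 3 2 16,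
   wt4 9 5 4 2 20, wt4 7 5 2 1 15, wt4 6 3 2 1 12, wt4 5 2 2 1 10, wt4 7 4 2 1 14,
   wt4 8 5 2 1 16, wt4 9 4 3 2 18, wt4 12 5 4 3 24]

/-- the weights of the quintic threefolds that are not stable -/
def quinticThreefoldNotStable : List ((Fin 5 → ℕ) × ℕ) :=
  quinticThreefoldNotStable1 ++ quinticThreefoldNotStable2

/-- part 1 of `quinticThreefoldUnstable` -/
def quinticThreefoldUnstable1 : List ((Fin 5 → ℕ) × ℕ) :=
  [wt4 30 20 14 5 70, wt4 24 20 15 8 68, wt4 40 19 16 4 80, wt4 18 15 10 4 48,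
   wt4 24 20 11 8 64, wt4 21 18 14 6 60, wt4 27 23 18 12 81, wt4 25 13 7 4 50,
   wt4 30 21 20 18 90, wt4 21 13 7 4 46, wt4 28 15 12 4 60, wt4 36 21 9 5 72,
   wt4 27 20 18 6 72, wt4 24 17 14 9 65, wt4 27 21 18 14 81, wt4 19 17 11 7 55,
   wt4 24 16 7 4 52, wt4 52 32 24 19 128, wt4 28 24 11 8 72, wt4 26 21 18 12 78]

/-- part 2 of `quinticThreefoldUnstable` -/
def quinticThreefoldUnstable2 : List ((Fin 5 → ℕ) × ℕ) :=
  [wt4 27 21 9 5 63, wt4 32 14 9 8 64, wt4 36 20 15 8 80, wt4 33 15 11 6 66,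
   wt4 30 20 17 9 77, wt4 36 23 20 12 92, wt4 30 16 12 1 60, wt4 21 17 9 3 51,
   wt4 40 30 25 24 120, wt4 18 16 13 4 52, wt4 21 15 5 3 45, wt4 26 19 11 6 63,
   wt4 48 32 27 20 128, wt4 34 27 19 14 95, wt4 44 32 24 19 120, wt4 36 32 27 12 108,
   wt4 36 15 12 8 72, wt4 27 21 14 12 75, wt4 24 21 17 9 72, wt4 36 21 14 12 84]

/-- part 3 of `quinticThreefoldUnstable` -/
def quinticThreefoldUnstable3 : List ((Fin 5 → ℕ) × ℕ) :=
  [wt4 39 23 21 15 99, wt4 23 18 16 6 64, wt4 18 16 13 12 60, wt4 48 36 32 27 144,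
   wt4 31 30 18 10 90, wt4 23 18 12 4 58, wt4 24 19 18 10 72, wt4 27 23 21 18 90,
   wt4 24 16 6 1 48, wt4 60 24 20 15 120, wt4 45 23 21 15 105, wt4 18 12 3 2 36,
   wt4 44 36 27 24 132, wt4 38 30 24 21 114, wt4 18 16 12 1 48, wt4 17 16 12 2 48,
   wt4 33 32 30 24 120]

/-- the weights of the unstable quintic threefolds -/
def quinticThreefoldUnstable : List ((Fin 5 → ℕ) × ℕ) :=
  quinticThreefoldUnstable1 ++ quinticThreefoldUnstable2 ++ quinticThreefoldUnstable3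

/-- **The stable and the semistable quintic surfaces, quartic threefolds and quintic
threefolds.** -/
theorem result :
    (∀ f : MvPolynomial (Fin 4) ℂ, f.IsHomogeneous 5 → f ≠ 0 →
      (Stable f ↔ ∀ p ∈ quinticSurfaceNotStable, ¬ HasWeight f p) ∧
      (Semistable f ↔ ∀ p ∈ quinticSurfaceUnstable, ¬ HasWeight f p)) ∧
    (∀ f : MvPolynomial (Fin 5) ℂ, f.IsHomogeneous 4 → f ≠ 0 →
      (Stable f ↔ ∀ p ∈ quarticThreefoldNotStable, ¬ HasWeight f p) ∧
      (Semistable f ↔ ∀ p ∈ quarticThreefoldUnstable, ¬ HasWeight f p)) ∧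
    (∀ f : MvPolynomial (Fin 5) ℂ, f.IsHomogeneous 5 → f ≠ 0 →
      (Stable f ↔ ∀ p ∈ quinticThreefoldNotStable, ¬ HasWeight f p) ∧
      (Semistable f ↔ ∀ p ∈ quinticThreefoldUnstable, ¬ HasWeight f p)) := by
  refine ⟨fun f hf hf0 => ⟨?_, ?_⟩, fun f hf hf0 => ⟨?_, ?_⟩, fun f hf hf0 => ⟨?_, ?_⟩⟩
  · exact stable_iff_of_covers (covers4 sets45n tree45n check45n dom45n _ (by decide +kernel))
      (by decide +kernel) hf hf0
  · exact semistable_iff_of_covers (covers4 sets45u tree45u check45u dom45u _ (by decide +kernel))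
      (by decide +kernel) hf hf0
  · exact stable_iff_of_covers (covers5 sets54n tree54n check54n dom54n _ (by decide +kernel))
      (by decide +kernel) hf hf0
  · exact semistable_iff_of_covers (covers5 sets54u tree54u check54u dom54u _ (by decide +kernel))
      (by decide +kernel) hf hf0
  · exact stable_iff_of_covers (covers5 sets55n tree55n check55n dom55n _ (by decide +kernel))
      (by decide +kernel) hf hf0
  · exact semistable_iff_of_covers (covers5 sets55u tree55u check55u dom55u _ (by decide +kernel))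
      (by decide +kernel) hf hf0

end Pool.Agent.Results.MP_965dfe_ag.StabilityByWeights
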